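import Pool.Agent.Lib.MP_60ff09_nt.PR.Half
import Pool.Agent.Lib.MP_696deb_nt.SPN.FZ

/-! One spin symbol serves the twists by `l` and by `-l` when `l` is one modulo four. -/

set_option autoImplicit false

open scoped Classical NumberTheorySymbols
open NumberField Finset Filter

namespace Pool.Agent.B6.S.SPN

open Pool.Agent.Spin

theorem nm_neg (p q : ℤ) (m : Fin 3 → ℤ) : nm p q (-m) = -nm p q m := by
  simp only [nm, Pi.neg_apply]
  ring

theorem ev_neg (r : ℤ) (m : Fin 3 → ℤ) : ev r (-m) = -ev r m := by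
  simp only [Cv.ev3, Pi.neg_apply]
  push_cast
  ring

theorem Link.both {p q : ℤ} {E : Fin 3 → ℤ} {P : ℤ → Prop} (h : Link p q E P) :
    Link p q E fun D => D.natAbs % 4 = 1 → P D ∧ P (-D) := by
  obtain ⟨N, h⟩ := h
  refine ⟨N, fun l hl hN => ?_⟩
  obtain ⟨h1, h2⟩ := h l hl hN
  refine ⟨fun D hD k _ => ⟨h1 D hD k, h1 _ (by rw [Int.natAbs_neg, hD]) k⟩,
    fun m r r' a1 a2 a3 a4 a5 a6 a7 e => ⟨h2 m r r' a1 a2 a3 a4 a5 a6 a7, ?_⟩⟩
  rw [a1] at e
  rw [← nm_neg]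
  refine h2 (-m) r r' (by rw [nm_neg, Int.natAbs_neg, a1]) (by simpa using a2) a3 a4 a5
    (by rw [ev_neg]; exact a6.neg_right) ?_
  rw [ev_neg, mul_neg, jacobiSym.neg _ (Nat.odd_iff.2 (by omega)), a7,
    ZMod.χ₄_nat_one_mod_four e, one_mul]

theorem sum_exc {A B : ℕ → Prop} (N X : ℕ) (h : ∀ l, N < l → A l → B l) :
    ∑ l ∈ (range (X + 1)).filter A, Real.log l ≤
      ∑ l ∈ (range (X + 1)).filter B, Real.log l + ∑ l ∈ range (N + 1), Real.log l := by
  have n0 : ∀ l : ℕ, 0 ≤ Real.log l := Real.log_natCast_nonneg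
  refine le_trans (sum_le_sum_of_subset_of_nonneg
    (t := (range (X + 1)).filter B ∪ range (N + 1)) (fun l hl => ?_) fun l _ _ => n0 l) ?_
  · obtain ⟨b1, b2⟩ := mem_filter.1 hl
    by_cases e : N < l
    · exact mem_union_left _ (mem_filter.2 ⟨b1, h l e b2⟩)
    · exact mem_union_right _ (mem_range.2 (by omega))
  · rw [← union_sdiff_self_eq_union, sum_union disjoint_sdiff]
    have := sum_le_sum_of_subset_of_nonneg (f := fun l : ℕ => Real.log l) (sdiff_subset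
      (s := range (N + 1)) (t := (range (X + 1)).filter B)) fun l _ _ => n0 l
    linarith

theorem densZ {p q s : ℤ} {E : Fin 3 → ℤ} {P : ℤ → Prop} (ok : (p = -1 ∧ q = 0) ∨ (p = 1 ∧ q = 2))
    (h1 : Odd s) (h2 : s ^ 2 + p = q * s) (h3 : 4 * p ^ 2 - 6 * q ∣ 8) (lk : Link p q E P) {M : ℕ}
    (M0 : M ≠ 0) (hM : 8 * dg p q * nm p q ![E 1 - 2 * p * E 2, -E 2, 0] ∣ (M : ℤ))
    {F : ℕ → Prop} (hF : ∀ l : ℕ, l.Prime → l % 4 = 1 → ∀ r r' : ZMod l, gv p q r = 0 →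
      gv p q r' = 0 → ev r E ≠ ev r' E → F l) {ε : ℝ} (hε : 0 < ε) : ∀ᶠ X : ℕ in atTop,
      ∑ l ∈ (range (X + 1)).filter fun l : ℕ => l.Prime ∧ l % 4 = 1 ∧ ¬ (P l ∧ P (-l)),
        Real.log l ≤
      1 / 2 * ∑ l ∈ (range (X + 1)).filter fun l : ℕ => l.Prime ∧ l % 4 = 1 ∧ F l, Real.log l +
        ε * X := by
  obtain ⟨L, _, _, t, σ, ρ, h⟩ := exists_Sx ok
  have := h.pid
  have := h.tc
  have bx := bx_of h h1 h2 h3
  obtain ⟨κ, k1, k2, k3, N, k4⟩ := bx.kap' lk.both M0 hM (fun _ => 1) (fun _ => .inl rfl)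
    fun _ _ _ => rfl
  have a : 8 * dg p q ∣ (M : ℤ) := (dvd_mul_right _ _).trans hM
  have a8 : 8 ∣ M := by exact_mod_cast (dvd_mul_right _ _).trans a
  let D := h.dat M M0 a8 ((mul_dvd_mul_right (by norm_num) _).trans a)
  have d4 : (4 : 𝓞 L) ∣ M := by
    simpa using map_dvd (Nat.castRingHom (𝓞 L)) (Dvd.dvd.trans (by norm_num : 4 ∣ 8) a8)
  have dE : ev (t 0) E - ev (t 1) E ∣ (M : 𝓞 L) := by
    have a : t 0 - t 1 ∣ (dg p q : ℤ) := by
      rw [← dl_sq h.s1 h.s2 h.s3, dl]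
      exact (((dvd_mul_right _ _).mul_right _)).trans (dvd_pow_self _ two_ne_zero)
    have b : ((8 * dg p q * nm p q ![E 1 - 2 * p * E 2, -E 2, 0] : ℤ) : 𝓞 L) ∣ M := by
      simpa using map_dvd (Int.castRingHom (𝓞 L)) hM
    rw [Int.cast_mul, Int.cast_mul, Int.cast_ofNat, ← bx.prod_ev] at b
    refine Dvd.dvd.trans ?_ b
    rw [show ev (t 0) E - ev (t 1) E =
      (t 0 - t 1) * ev (t 2) ![E 1 - 2 * p * E 2, -E 2, 0] by
        simp only [Cv.ev3, Matrix.cons_val]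
        push_cast
        linear_combination (t 0 - t 1) * E 2 * h.s1]
    exact mul_dvd_mul (a.mul_left _) (dvd_mul_left _ _)
  obtain ⟨κ', hκ⟩ : ∃ κ' : 𝓞 L → ℝ, ∀ x,
      κ' x = if Ideal.absNorm (Ideal.span {x}) % 4 = 1 then κ x else 0 := ⟨_, fun _ => rfl⟩
  have z : ∀ x, κ' x ≠ 0 → Ideal.absNorm (Ideal.span {x}) % 4 = 1 := fun x e =>
    by_contra fun c => e (by rw [hκ, if_neg c])
  have per : D.Per κ' := ⟨fun x => by
      rw [hκ]
      split_ifs
      · exact k1 x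
      · simp, fun x y c => by rw [hκ, hκ, bx.norm_mod (d4.trans c), k2 x y c],
    fun x e => k3 x fun c => e (by rw [hκ, c, ite_self])⟩
  filter_upwards [D.spin_halfZ per (Z := fun n => n % 4 = 1) z (half_pos hε),
    tendsto_natCast_atTop_atTop.eventually_ge_atTop
      (3 * (∑ l ∈ range (max N M + 1), Real.log l) / ε)] with X a1 a2
  rw [div_le_iff₀ hε] at a2
  have b1 := sum_exc (A := fun l : ℕ => l.Prime ∧ l % 4 = 1 ∧ ¬ (P l ∧ P (-l)))
    (B := fun l => l.Prime ∧ D.Bad κ' l) (max N M) X fun l hl ⟨c1, c2, c3⟩ => by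
      obtain ⟨e1, e2⟩ := k4 l c1 ((le_max_left _ _).trans_lt hl) fun e => c3 (by
        simpa using e (by simpa using c2))
      refine ⟨c1, e1, fun x hx => ?_⟩
      have hx' : Ideal.absNorm (Ideal.span {x}) = l := hx
      have := e2 x hx'
      rw [← if_pos (c := Ideal.absNorm (Ideal.span {x}) % 4 = 1) (t := κ x) (e := 0)
        (by rw [hx', c2]), ← hκ] at this
      exact this
  have b2 := sum_exc (A := fun l : ℕ => l.Prime ∧ l % 4 = 1 ∧ D.Spl l)
    (B := fun l => l.Prime ∧ l % 4 = 1 ∧ F l) (max N M) X fun l hl ⟨c1, c2, x, hx⟩ => by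
      have hx' : Ideal.absNorm (Ideal.span {x}) = l := hx
      obtain ⟨ψ, k⟩ := exists_psi c1 hx'
      have lM : ¬ l ∣ M := fun a =>
        (((le_max_right _ _).trans_lt hl).trans_le (Nat.le_of_dvd M0.bot_lt a)).false
      have g : ∀ i, gv p q (ψ (t i)) = 0 := fun i => by
        simpa [gv, map_ofNat] using congrArg ψ (bx.root i)
      refine ⟨c1, c2, hF l c1 c2 _ _ (g 0) (g 1) fun e => lM ?_⟩
      have e1 : ψ (M : 𝓞 L) = 0 := (k _).2 (((k _).1 (by
        rw [map_sub, map_ev, map_ev, e, sub_self])).trans dE)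
      rw [map_natCast] at e1
      exact (ZMod.natCast_eq_zero_iff _ _).1 e1
  refine le_trans (le_of_eq ?_) (b1.trans ?_)
  · congr
  · have a1' : ∑ l ∈ (range (X + 1)).filter fun l => l.Prime ∧ D.Bad κ' l, Real.log l ≤
        1 / 2 * ∑ l ∈ (range (X + 1)).filter fun l : ℕ => l.Prime ∧ l % 4 = 1 ∧ D.Spl l,
          Real.log l + ε / 2 * X := by convert a1
    have b2' : ∑ l ∈ (range (X + 1)).filter fun l : ℕ => l.Prime ∧ l % 4 = 1 ∧ D.Spl l,
        Real.log l ≤ ∑ l ∈ (range (X + 1)).filter fun l : ℕ => l.Prime ∧ l % 4 = 1 ∧ F l,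
          Real.log l + ∑ l ∈ range (max N M + 1), Real.log l := by convert b2
    have e : (∑ l ∈ @filter _ (fun l => l.Prime ∧ D.Bad κ' l) (fun _ => Classical.propDecidable _)
        (range (X + 1)), Real.log l) =
        ∑ l ∈ (range (X + 1)).filter fun l => l.Prime ∧ D.Bad κ' l, Real.log l := by congr
    rw [e]
    linarith

end Pool.Agent.B6.S.SPN
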