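import Pool.Agent.Lib.MP_60ff09_nt.PR.Defs

/-! Four point counts, and the dependence on the coefficients. -/

set_option autoImplicit false

open NumberField

namespace Pool.Agent.Lib.MP_60ff09_nt.PR

open V6

theorem ap11_2 : ap ⟨0, -1, 1, -10, -20⟩ 2 = -2 := by
  rw [ap, Nat.card_eq_fintype_card, Fintype.card_subtype]
  decide +kernel

theorem ap11_11 : ap ⟨0, -1, 1, -10, -20⟩ 11 = 1 := by
  rw [ap, Nat.card_eq_fintype_card, Fintype.card_subtype]
  decide +kernel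

theorem ap19_2 : ap ⟨0, 1, 1, -9, -15⟩ 2 = 0 := by
  rw [ap, Nat.card_eq_fintype_card, Fintype.card_subtype]
  decide +kernel

theorem ap19_19 : ap ⟨0, 1, 1, -9, -15⟩ 19 = 1 := by
  rw [ap, Nat.card_eq_fintype_card, Fintype.card_subtype]
  decide +kernel

theorem beil_congr {M L : Type} [Field M] [NumberField M] [IsGalois ℚ M] [Field L] [Algebra L ℂ]
    {W : WeierstrassCurve ℚ} {N r : ℕ} {a a' : ℕ → ℤ} {V : Rep L (M ≃ₐ[ℚ] M)}
    (e : ∀ p : ℕ, p.Prime → a p = a' p) (h : BeilN W N a V r) : BeilN W N a' V r := by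
  obtain ⟨F, h1, h2, h3⟩ := h
  refine ⟨F, h1, fun Q φ hQ s hs => ?_, h3⟩
  convert h2 Q φ hQ s hs using 2 with p
  split_ifs with hp
  · rw [e p hp]
  · rfl

theorem full_of (W : WeierstrassCurve ℤ) {l : ℕ} (hl : l.Prime) (h4 : l % 4 = 1) {u v : ZMod l}
    (ne : u ≠ v) (hu : u ^ 3 + W.b₂ * u ^ 2 + 8 * W.b₄ * u + 16 * W.b₆ = 0)
    (hv : v ^ 3 + W.b₂ * v ^ 2 + 8 * W.b₄ * v + 16 * W.b₆ = 0) : Full W l := by
  have := Fact.mk hl
  have t : (2 : ZMod l) ≠ 0 := fun e => by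
    have : ((2 : ℕ) : ZMod l) = 0 := by exact_mod_cast e
    have := (Nat.prime_dvd_prime_iff_eq hl Nat.prime_two).1 ((ZMod.natCast_eq_zero_iff _ _).1 this)
    omega
  have f : (4 : ZMod l) ≠ 0 := by
    rw [show (4 : ZMod l) = 2 * 2 by norm_num]
    exact mul_ne_zero t t
  have s : (16 : ZMod l) ≠ 0 := by
    rw [show (16 : ZMod l) = 4 * 4 by norm_num]
    exact mul_ne_zero f f
  obtain ⟨x, rfl⟩ : ∃ x, u = 4 * x := ⟨u / 4, by field_simp⟩
  obtain ⟨y, rfl⟩ : ∃ y, v = 4 * y := ⟨v / 4, by field_simp⟩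
  exact ⟨x, y, fun e => ne (by rw [e]), mul_left_cancel₀ s (by linear_combination hu),
    mul_left_cancel₀ s (by linear_combination hv)⟩

end Pool.Agent.Lib.MP_60ff09_nt.PR
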