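import Pool.Agent.Lib.MP_60ff09_nt.V6Defs

/-! Point counts and primes with full two-torsion. -/

set_option autoImplicit false

namespace Pool.Agent.Lib.MP_60ff09_nt.PR

/-- The number `p` minus the number of affine solutions of the equation modulo `p`. -/
noncomputable def ap (W : WeierstrassCurve ℤ) (p : ℕ) : ℤ :=
  p - Nat.card {q : ZMod p × ZMod p // q.2 ^ 2 + W.a₁ * q.1 * q.2 + W.a₃ * q.2 =
    q.1 ^ 3 + W.a₂ * q.1 ^ 2 + W.a₄ * q.1 + W.a₆}

/-- The two-division cubic has two different roots modulo `l`. -/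
def Full (W : WeierstrassCurve ℤ) (l : ℕ) : Prop :=
  ∃ x y : ZMod l, x ≠ y ∧ 4 * x ^ 3 + W.b₂ * x ^ 2 + 2 * W.b₄ * x + W.b₆ = 0 ∧
    4 * y ^ 3 + W.b₂ * y ^ 2 + 2 * W.b₄ * y + W.b₆ = 0

end Pool.Agent.Lib.MP_60ff09_nt.PR
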