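import Pool.Agent.Lib.MP_696deb_nt.Spin.PD

/-! The spin cancels over the primes in a class of norms. -/

set_option autoImplicit false

open scoped Classical
open Finset Filter Topology

namespace Pool.Agent.Spin

namespace Dat

variable (D : Dat)

/-- The weighted sum grouped by the norm. -/
theorem sd_groupZ {κ : D.O → ℝ} (hκ : D.Per κ) {Z : ℕ → Prop} (hZ : ∀ x, κ x ≠ 0 → Z (D.N x))
    {R Y U : ℝ} {W : V → ℝ} {ψ : ℝ → ℝ}
    (hW : ∀ z, 0 ≤ W z) (hU : (R * Y) ^ 6 ≤ U)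
    (hψ : ∀ x : D.O, x ≠ 0 → ∑ y ∈ (D.ball (R * Y)).filter fun y => Associated y x,
      W (Y⁻¹ • D.e y) = ψ (D.N x / Y ^ 6)) :
    ∑ n ∈ range (⌊U⌋₊ + 1), ψ (n / Y ^ 6) * (if D.Bad κ n then 1 else if Z n then -1 else 0) * D.sdA U n ≤
      D.S W R Y fun x => D.Λ x * D.sp κ x := by
  have e1 : (D.S W R Y fun x => D.Λ x * D.sp κ x) = ∑ m ∈ D.DU U,
      ∑ y ∈ (D.ball (R * Y)).filter fun y => Associated y m,
        W (Y⁻¹ • D.e y) * (D.Λ y * D.sp κ y) := by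
    simp only [sum_filter]
    rw [sum_comm, S]
    refine sum_congr rfl fun x hx => ?_
    by_cases x0 : x = 0
    · subst x0
      simp [D.sd_Λ0]
    · obtain ⟨m, hm, a⟩ := D.exists_rp x0
      have hm' : m ∈ D.DU U := by
        refine D.mem_DU.2 ⟨hm, ?_⟩
        rw [D.N_assoc a]
        exact (D.N_le x).trans ((pow_le_pow_left₀ (D.sz_nonneg x) (D.mem_ball.1 hx) 6).trans hU)
      rw [sum_eq_single m (fun m' h' ne => if_neg fun c =>
        ne (D.rp_eq (D.mem_DU.1 h').1 hm (c.symm.trans a.symm))) (fun c => absurd hm' c),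
        if_pos a.symm]
  have e2 : ∑ n ∈ range (⌊U⌋₊ + 1), ψ (n / Y ^ 6) * (if D.Bad κ n then 1 else if Z n then -1 else 0) * D.sdA U n =
      ∑ m ∈ D.DU U, ψ (D.N m / Y ^ 6) * (if D.Bad κ (D.N m) then 1 else if Z (D.N m) then -1 else 0) * D.Λ m := by
    rw [← sum_fiberwise_of_maps_to (s := D.DU U) (t := range (⌊U⌋₊ + 1)) (g := D.N)
      fun m hm => mem_range.2 (Nat.lt_succ_of_le (Nat.le_floor (D.mem_DU.1 hm).2))]
    refine sum_congr rfl fun n _ => ?_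
    rw [sdA, mul_sum]
    exact sum_congr rfl fun m hm => by rw [(mem_filter.1 hm).2]
  rw [e1, e2]
  refine sum_le_sum fun m hm => ?_
  rw [← hψ m (D.mem_DU.1 hm).1.1, sum_mul, sum_mul]
  refine sum_le_sum fun y hy => ?_
  have a := (mem_filter.1 hy).2
  rw [D.Λ_assoc a, mul_assoc, mul_comm _ (D.Λ m)]
  refine mul_le_mul_of_nonneg_left (mul_le_mul_of_nonneg_left ?_ (D.Λ_nonneg m)) (hW _)
  split_ifs with b c
  · exact (b.2 y (D.N_assoc a)).ge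
  · exact (abs_le.1 (D.sp_abs hκ y)).1
  · rw [sp, of_not_not (mt (hZ y) (D.N_assoc a ▸ c)), zero_mul]

theorem sd_ptZ (κ : D.O → ℝ) {Z : ℕ → Prop} (hZ : ∀ x, κ x ≠ 0 → Z (D.N x))
    {η X U C : ℝ} {ψ : ℝ → ℝ} (hη : 0 < η) (hX : 0 < X) (hC : 0 ≤ C)
    (hA : ∀ n : ℕ, n ≠ 0 → D.sdA U n ≤ C * (n : ℝ) ^ (1 / 4 : ℝ))
    (h0 : ∀ u, 0 ≤ ψ u ∧ ψ u ≤ 1) (h1 : ∀ u, 2 * η ≤ u → u ≤ 1 → ψ u = 1)
    (h2 : ∀ u, 1 + η ≤ u → ψ u = 0) {n : ℕ} (hn : (n : ℝ) ≤ U) :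
    12 * (if (n.Prime ∧ D.Bad κ n) ∧ (n : ℝ) ≤ X then Real.log n else 0) -
        6 * (if (n.Prime ∧ Z n ∧ D.Spl n) ∧ (n : ℝ) ≤ X then Real.log n else 0) ≤
      ψ (n / X) * (if D.Bad κ n then 1 else if Z n then -1 else 0) * D.sdA U n +
        12 * (if n.Prime ∧ (n : ℝ) ≤ 2 * η * X then Real.log n else 0) +
        6 * ((if n.Prime ∧ (n : ℝ) ≤ (1 + η) * X then Real.log n else 0) -
          if n.Prime ∧ (n : ℝ) ≤ X then Real.log n else 0) +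
        if Sqf n ∨ n ∣ D.M then (C + 48) * U ^ (1 / 4 : ℝ) else 0 := by
  by_cases z : Z n
  · simpa only [z, true_and, if_true] using D.sd_pt κ hη hX hC hA h0 h1 h2 hn
  have hb : ¬ D.Bad κ n := fun b => by
    obtain ⟨x, hx⟩ := b.1
    have := b.2 x hx
    rw [sp, of_not_not (mt (hZ x) (hx ▸ z)), zero_mul] at this
    exact zero_ne_one this
  have l0 := sd_log n
  have hηX : 0 < η * X := mul_pos hη hX
  have t1 : 0 ≤ if n.Prime ∧ (n : ℝ) ≤ 2 * η * X then Real.log n else 0 := by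
    split_ifs
    · exact l0
    · exact le_rfl
  have t2 : (if n.Prime ∧ (n : ℝ) ≤ X then Real.log n else 0) ≤
      if n.Prime ∧ (n : ℝ) ≤ (1 + η) * X then Real.log n else 0 := by
    by_cases c : n.Prime ∧ (n : ℝ) ≤ X
    · rw [if_pos c, if_pos ⟨c.1, by linarith [c.2]⟩]
    · rw [if_neg c]
      split_ifs
      · exact l0
      · exact le_rfl
  have U0 : 0 ≤ U := (Nat.cast_nonneg n).trans hn
  have t3 : 0 ≤ if Sqf n ∨ n ∣ D.M then (C + 48) * U ^ (1 / 4 : ℝ) else 0 := by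
    split_ifs
    · positivity
    · exact le_rfl
  simp only [z, hb, and_false, false_and, if_false, mul_zero, zero_mul, sub_zero, zero_add]
  linarith

/-- Among the primes of the class, at most half of the norms have positive spin. -/
theorem spin_halfZ {κ : D.O → ℝ} (hκ : D.Per κ) {Z : ℕ → Prop}
    (hZ : ∀ x, κ x ≠ 0 → Z (D.N x)) {ε : ℝ} (h : 0 < ε) : ∀ᶠ X : ℕ in atTop,
    ∑ p ∈ (range (X + 1)).filter fun p => p.Prime ∧ D.Bad κ p, Real.log p ≤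
      1 / 2 * ∑ p ∈ (range (X + 1)).filter fun p => p.Prime ∧ Z p ∧ D.Spl p, Real.log p +
        ε * X := by
  obtain ⟨η, hη, η1, ηε⟩ : ∃ η : ℝ, 0 < η ∧ η ≤ 1 ∧ 10 * η ≤ ε :=
    ⟨min 1 (ε / 10), lt_min one_pos (by positivity), min_le_left _ _, by
      linarith [min_le_right 1 (ε / 10)]⟩
  obtain ⟨L, R, W, ψ, hR, hW, hW', W0, Wη, h0, h1, h2, hψ⟩ := D.part hη
  obtain ⟨C, hC, hA⟩ := D.sd_Abd
  obtain ⟨C', hC', hE⟩ := sd_exc D.M D.M0
  have cN : Tendsto (fun X : ℕ => (X : ℝ)) atTop atTop := tendsto_natCast_atTop_atTop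
  have v1 : ∀ᶠ X : ℕ in atTop, D.S W R ((X : ℝ) ^ (1 / 6 : ℝ)) (fun x => D.Λ x * D.sp κ x) /
      ((X : ℝ) ^ (1 / 6 : ℝ)) ^ 6 < η :=
    ((D.an_main hR hW hW' hη Wη hκ).comp
      ((tendsto_rpow_atTop (by norm_num : (0 : ℝ) < 1 / 6)).comp cN)).eventually
      (gt_mem_nhds hη)
  have v2 : ∀ᶠ X : ℕ in atTop, Chebyshev.theta ((1 + η) * X) / ((1 + η) * X) < 1 + η :=
    (Pool.Agent.Shared.PNT.pnt_theta.comp (cN.const_mul_atTop (by linarith))).eventually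
      (gt_mem_nhds (by linarith))
  have v3 : ∀ᶠ X : ℕ in atTop, 1 - η < Chebyshev.theta X / X :=
    (Pool.Agent.Shared.PNT.pnt_theta.comp cN).eventually (lt_mem_nhds (by linarith))
  have v4 : ∀ᶠ X : ℕ in atTop,
      C' * (C + 48) * (R ^ 6) ^ (19 / 24 : ℝ) * (X : ℝ) ^ (-(5 / 24) : ℝ) < η := by
    have := ((tendsto_rpow_neg_atTop (by norm_num : (0 : ℝ) < 5 / 24)).comp cN).const_mul
      (C' * (C + 48) * (R ^ 6) ^ (19 / 24 : ℝ))
    rw [mul_zero] at this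
    exact this.eventually (gt_mem_nhds hη)
  filter_upwards [v1, v2, v3, v4, eventually_ge_atTop 1] with X v1 v2 v3 v4 X1
  have X1' : (1 : ℝ) ≤ X := by exact_mod_cast X1
  have X0 : (0 : ℝ) < X := by linarith
  have Y6 : ((X : ℝ) ^ (1 / 6 : ℝ)) ^ 6 = X := by
    rw [← Real.rpow_natCast, ← Real.rpow_mul X0.le]
    norm_num
  have R6 : (1 : ℝ) ≤ R ^ 6 := one_le_pow₀ hR
  set U : ℝ := R ^ 6 * X with hU
  have XU : (X : ℝ) ≤ U := by nlinarith
  have U1 : 1 ≤ U := X1'.trans XU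
  have hK : range (X + 1) ⊆ range (⌊U⌋₊ + 1) :=
    range_subset_range.2 (Nat.succ_le_succ (Nat.le_floor XU))
  have g := D.sd_groupZ hκ hZ (U := U) W0 (by rw [mul_pow, Y6]) (hψ _ (by positivity))
  rw [Y6] at g v1
  have pt := sum_le_sum (s := range (⌊U⌋₊ + 1)) fun n hn =>
    D.sd_ptZ κ hZ hη X0 hC (hA U) h0 h1 h2 (n := n)
      ((Nat.cast_le.2 (Nat.lt_succ_iff.1 (mem_range.1 hn))).trans (Nat.floor_le (by linarith)))
  rw [sum_sub_distrib, ← mul_sum, ← mul_sum, sum_add_distrib, sum_add_distrib, sum_add_distrib,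
    ← mul_sum, ← mul_sum, sum_sub_distrib, ← sd_cut _ X _ hK, ← sd_cut _ X _ hK] at pt
  have b1 := (sd_th (range (⌊U⌋₊ + 1)) (x := 2 * η * X)).trans
    (Chebyshev.theta_le_log4_mul_x (by positivity))
  have b2 := sd_th (range (⌊U⌋₊ + 1)) (x := (1 + η) * X)
  have b3 := sd_th' _ X hK
  have b4 : (∑ n ∈ range (⌊U⌋₊ + 1),
      if Sqf n ∨ n ∣ D.M then (C + 48) * U ^ (1 / 4 : ℝ) else 0) ≤ η * X := by
    rw [← sum_filter, sum_const, nsmul_eq_mul]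
    have e : U ^ (13 / 24 : ℝ) * U ^ (1 / 4 : ℝ) =
        (R ^ 6) ^ (19 / 24 : ℝ) * (X : ℝ) ^ (-(5 / 24) : ℝ) * X := by
      rw [← Real.rpow_add (by linarith), hU, Real.mul_rpow (by linarith) X0.le, mul_assoc,
        ← Real.rpow_add_one X0.ne']
      norm_num
    calc _ ≤ C' * U ^ (13 / 24 : ℝ) * ((C + 48) * U ^ (1 / 4 : ℝ)) :=
          mul_le_mul_of_nonneg_right (hE U U1) (by positivity)
      _ = C' * (C + 48) * (U ^ (13 / 24 : ℝ) * U ^ (1 / 4 : ℝ)) := by ring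
      _ = C' * (C + 48) * (R ^ 6) ^ (19 / 24 : ℝ) * (X : ℝ) ^ (-(5 / 24) : ℝ) * X := by
          rw [e]; ring
      _ ≤ η * X := mul_le_mul_of_nonneg_right v4.le X0.le
  have l4 : Real.log 4 ≤ 3 := by
    have := Real.log_le_sub_one_of_pos (by norm_num : (0 : ℝ) < 4)
    linarith
  rw [div_lt_iff₀ X0] at v1
  rw [div_lt_iff₀ (by positivity)] at v2
  rw [lt_div_iff₀ X0] at v3
  have hηX : 0 < η * X := mul_pos hη X0
  have b5 : Real.log 4 * (2 * η * X) ≤ 3 * (2 * η * X) :=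
    mul_le_mul_of_nonneg_right l4 (by positivity)
  have b6 : η * (η * X) ≤ 1 * (η * X) := mul_le_mul_of_nonneg_right η1 hηX.le
  have b7 : 10 * η * X ≤ ε * X := mul_le_mul_of_nonneg_right ηε X0.le
  nlinarith

end Dat

end Pool.Agent.Spin
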