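import Pool.Agent.Lib.MP_60ff09_nt.PR.Both
import Pool.Agent.Lib.MP_60ff09_nt.PR.Cnt
import Pool.Agent.Lib.MP_60ff09_nt.V7Main

/-! The conjecture of Beilinson for theta series attached to two primes. -/

set_option autoImplicit false

open scoped Classical NumberTheorySymbols
open Finset Filter NumberField
open Pool.Agent.Lib.MP_696deb_nt Pool.Agent.B6 Pool.Agent.B4 Pool.Agent.B6.S.SPN

namespace Pool.Agent.Lib.MP_60ff09_nt.PR

open V6

theorem ap_good [Cs] {l : ℕ} [Fact l.Prime] (h : ¬ l ∣ 2 * NN) : ap WZ l = tr l cub := by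
  have h2 : l ≠ 2 := fun k => h (k ▸ dvd_mul_right _ _)
  have h3 : ¬ (l : ℤ) ∣ WZ.Δ := fun k => h (((dvd_Δ Fact.out).1 k).mul_left _)
  have := ell_mod h3
  have c := card_mod h2 h3 rfl rfl rfl
  rw [Nat.card_congr (WZ.map (Int.castRingHom (ZMod l))).toAffine.pointEquiv] at c
  erw [Finite.card_option] at c
  rw [cub_fun, ap, Nat.card_congr (Equiv.subtypeEquivRight
    (q := fun q : ZMod l × ZMod l => (WZ.map (Int.castRingHom (ZMod l))).toAffine.Equation q.1 q.2)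
    fun q => by rw [WeierstrassCurve.Affine.equation_iff]; simp)]
  push_cast at c ⊢
  linarith

theorem core [Cs] (hp : NN.Prime) (h3 : NN % 4 = 3) {D : GE.MD Wu NN} (n : New D)
    (k : ∀ d, Squarefree d → B7.Cnv D.c d) (c2 : D.c 2 = ap WZ 2) (cN : ap WZ NN = 1)
    {d : Fin 4 → ℤ} (hd : ∀ i, (d i).natAbs.Prime ∧ NN < (d i).natAbs ∧ Cork ((d i).natAbs : ℤ) ∧
      Cork (-((d i).natAbs : ℤ))) :
    HoldsN Wu NN (ap WZ) d (∑ i, if J(((d i).natAbs : ℤ) | NN) = 1 then 0 else 1) := by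
  intro M L _ _ _ _ _ Vg Vh _ _ hV
  have sq : ∀ {d : ℤ}, d.natAbs.Prime → Squarefree d := fun h =>
    Int.squarefree_natAbs.1 h.squarefree
  have b : ∀ d : ℤ, d.natAbs.Prime → NN < d.natAbs → Cork d →
      Bsd d (if d.sign * J(d | NN) = 1 then 0 else 1) := fun d h1 h2 h => by
    have := k d (sq h1) h
    rwa [B7.rootNo_pr n.nw hp, if_neg fun e =>
      h2.ne ((Nat.prime_dvd_prime_iff_eq hp h1).1 (Int.natCast_dvd.1 e))] at this
  have b2 : ∀ {l : ℕ}, l.Prime ∧ NN < l ∧ Cork l ∧ Cork (-l) →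
      Bsd l (if J(l | NN) = 1 then 0 else 1) ∧ Bsd (-l) (if J(l | NN) = 1 then 0 else 1) :=
    fun {l} ⟨a1, a2, a3, a4⟩ => by
      have s : (l : ℤ).sign = 1 := Int.sign_eq_one_of_pos (by exact_mod_cast a1.pos)
      have e1 := b l (by simpa using a1) (by simpa using a2) a3
      have e2 := b (-l) (by simpa using a1) (by simpa using a2) a4
      rw [s, one_mul] at e1
      rw [Int.sign_neg, s, jacobiSym.neg _ NN_odd, ZMod.χ₄_nat_three_mod_four h3, ← mul_assoc,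
        neg_mul_neg, one_mul, one_mul] at e2
      exact ⟨e1, e2⟩
  have e := beil_kro ⟨n.nw, n.tr⟩ hV
    (r := fun i => if J(((d i).natAbs : ℤ) | NN) = 1 then 0 else 1) (fun i => sq (hd i).1)
    fun i => by
      have := b2 (hd i)
      rcases Int.natAbs_eq (d i) with c | c
      · exact (congrArg (Bsd · _) c).mpr this.1
      · exact (congrArg (Bsd · _) c).mpr this.2
  refine beil_congr (fun p hq => ?_) e
  by_cases p2 : p = 2
  · rw [p2, c2]
  by_cases pN : p = NN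
  · have := B7.nw_prod n.nw NN_sqf
    rw [hp.primeFactors, Finset.prod_singleton, neg_inj] at this
    rw [pN, this, cN]
  have := Fact.mk hq
  have g : ¬ p ∣ 2 * NN := fun c => (hq.dvd_mul.1 c).elim
    (fun c => p2 ((Nat.prime_dvd_prime_iff_eq hq Nat.prime_two).1 c))
    fun c => pN ((Nat.prime_dvd_prime_iff_eq hq hp).1 c)
  rw [n.tr p g, ap_good g]

/-- The conclusion for the curve `W` of conductor `N`. -/
def Goal (N : ℕ) (W : WeierstrassCurve ℤ) : Prop :=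
  ∃ S : Set ℕ, (∀ ε : ℝ, 0 < ε → ∀ᶠ X : ℕ in atTop,
      ∑ l ∈ range (X + 1), Set.indicator {l : ℕ | l.Prime ∧ l % 4 = 1 ∧ l ∉ S}
          (fun l => Real.log l) l ≤
        1 / 2 * ∑ l ∈ range (X + 1), Set.indicator {l : ℕ | l.Prime ∧ l % 4 = 1 ∧ Full W l}
          (fun l => Real.log l) l + ε * X) ∧
    ∀ d : Fin 4 → ℤ, (∀ i, (d i).natAbs ∈ S) → HoldsN (W.map (Int.castRingHom ℚ)) N (ap W) d
      (∑ i, if J(((d i).natAbs : ℤ) | N) = 1 then 0 else 1)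

theorem ind_eq (X : ℕ) (A : ℕ → Prop) [DecidablePred A] :
    ∑ l ∈ range (X + 1), Set.indicator {l : ℕ | A l} (fun l => Real.log l) l =
      ∑ l ∈ (range (X + 1)).filter A, Real.log l := by
  rw [sum_filter]
  refine sum_congr rfl fun l _ => ?_
  split_ifs with c
  · exact Set.indicator_of_mem (s := {l : ℕ | A l}) c _
  · exact Set.indicator_of_notMem (s := {l : ℕ | A l}) c _

theorem goal_of [Cs] (hp : NN.Prime) (h3 : NN % 4 = 3) {D : GE.MD Wu NN} (n : New D)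
    (k : ∀ d, Squarefree d → B7.Cnv D.c d) (c2 : D.c 2 = ap WZ 2) (cN : ap WZ NN = 1)
    {p q s : ℤ} {E : Fin 3 → ℤ} (ok : (p = -1 ∧ q = 0) ∨ (p = 1 ∧ q = 2))
    (a1 : Odd s) (a2 : s ^ 2 + p = q * s) (a3 : 4 * p ^ 2 - 6 * q ∣ 8) (lk : Link p q E Cork)
    {M : ℕ} (M0 : M ≠ 0) (hM : 8 * dg p q * nm p q ![E 1 - 2 * p * E 2, -E 2, 0] ∣ (M : ℤ))
    (rt : ∀ (l : ℕ) (r : ZMod l), gv p q r = 0 →
      S.ev r E ^ 3 + WZ.b₂ * S.ev r E ^ 2 + 8 * WZ.b₄ * S.ev r E + 16 * WZ.b₆ = 0) :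
    Goal NN WZ := by
  refine ⟨{l | l.Prime ∧ NN < l ∧ Cork l ∧ Cork (-l)}, fun ε hε => ?_,
    fun d hd => core hp h3 n k c2 cN hd⟩
  filter_upwards [densZ (P := fun d => NN < d.natAbs ∧ Cork d) (F := Full WZ) ok a1 a2 a3
    (lk.mono NN fun _ _ h c => ⟨h, c⟩) M0 hM
    (fun l hl h4 r r' g g' ne => full_of WZ hl h4 ne (rt l r g) (rt l r' g')) hε] with X hX
  rw [ind_eq, ind_eq]
  refine le_trans (sum_le_sum_of_subset_of_nonneg (fun l hl => ?_)
    fun l _ _ => Real.log_natCast_nonneg l) hX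
  obtain ⟨b1, b2, b3, b4⟩ := mem_filter.1 hl
  simp only [mem_filter]
  exact ⟨b1, b2, b3, fun c => b4 ⟨b2, by simpa using c.1.1, c.1.2, c.2.2⟩⟩

theorem new_of [Cs] {q : ℕ} {a : ℤ} (hq : B7.Sq q) (ha : Even a)
    (h : ∃ D : GE.MD Wu NN, New D ∧ SeedK D.par.φ NN q ∧ B7.SeedH D.par.φ q ∧ D.c 2 = a) :
    ∃ D : GE.MD Wu NN, New D ∧ D.c 2 = a ∧ ∀ d, Squarefree d → B7.Cnv D.c d :=
  let ⟨D, n, s, t, e⟩ := h
  ⟨D, n, e, fun _ => B7.conv7 G7.gz_stmt G7.gk_stmt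
    ⟨n.nw, n.tr, n.t0_ne, q, hq.prime, hq.m8, hq.gt, hq.cop, s.seedC⟩ (e ▸ ha) hq t.seedE⟩

theorem goal11 : Goal 11 ⟨0, -1, 1, -10, -20⟩ := by
  obtain ⟨D, n, e, k⟩ := @new_of cs11 _ _
    (@B7.Sq.mk cs11 _ (by norm_num) rfl (by decide) (by decide)) (by decide) B7.md11h
  obtain ⟨_, _, h⟩ := pk11
  refine @goal_of cs11 Nat.prime_eleven rfl D n k (e.trans ap11_2.symm) ap11_11 _ _ (-1) _
    (.inl ⟨rfl, rfl⟩) (by decide) (by decide) (by decide) (@Pk.link _ _ _ _ _ _ cs11.toCw h) 340736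
    (by norm_num) (by decide) fun l r g => ?_
  rw [show (@WZ cs11.toCw).b₂ = -4 from by decide, show (@WZ cs11.toCw).b₄ = -20 from by decide,
    show (@WZ cs11.toCw).b₆ = -79 from by decide]
  simp only [B6.S.Cv.ev3, gv, Matrix.cons_val] at g ⊢
  push_cast at g ⊢
  linear_combination (512 * r ^ 3 - 1664 * r ^ 2 + 1120 * r - 632) * g

theorem goal19 : Goal 19 ⟨0, 1, 1, -9, -15⟩ := by
  obtain ⟨D, n, e, k⟩ := @new_of cs19 _ _
    (@B7.Sq.mk cs19 _ (by norm_num) rfl (by decide) (by decide)) (by decide) B7.md19h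
  obtain ⟨_, _, h⟩ := pk19
  refine @goal_of cs19 (by norm_num : Nat.Prime 19) rfl D n k (e.trans ap19_2.symm) ap19_19 _ _ 1 _
    (.inr ⟨rfl, rfl⟩) (by decide) (by decide) (by decide) (@Pk.link _ _ _ _ _ _ cs19.toCw h) 92416
    (by norm_num) (by decide) fun l r g => ?_
  rw [show (@WZ cs19.toCw).b₂ = 4 from by decide, show (@WZ cs19.toCw).b₄ = -18 from by decide,
    show (@WZ cs19.toCw).b₆ = -59 from by decide]
  simp only [B6.S.Cv.ev3, gv, Matrix.cons_val] at g ⊢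
  push_cast at g ⊢
  linear_combination (512 * r ^ 3 + 896 * r ^ 2 + 1888 * r + 936) * g

end Pool.Agent.Lib.MP_60ff09_nt.PR
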